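import Pool.Agent.Lib.MP_8ab79f_ag.Mg.G006
import Pool.Agent.Lib.MP_8ab79f_ag.Mg.G005
import Pool.Agent.Lib.MP_8ab79f_ag.Mg.G010

/-!
# R-equivalence on smooth complete intersections of two quadrics in `P⁶` over `p`-adic fields
-/

set_option autoImplicit false
set_option linter.unusedSectionVars false

noncomputable section

namespace Pool.Agent.Lib.MP_8ab79f_ag.Six

open Polynomial

/-- Smoothness is invariant under a change of the first member of the pencil. -/
theorem Sm.add {κ : Type*} [Field κ] {f h : Matrix (Fin 7) (Fin 7) κ} (hS : Sm f h) (t : κ) :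
    Sm (f + t • h) h := by
  intro α β v hv hαβ hker hcon
  have h1 : (f + t • h).map (algebraMap κ (AlgebraicClosure κ)) =
      f.map (algebraMap κ (AlgebraicClosure κ)) +
        algebraMap κ (AlgebraicClosure κ) t • h.map (algebraMap κ (AlgebraicClosure κ)) := by
    ext i j
    simp only [Matrix.map_apply, Matrix.add_apply, Matrix.smul_apply, smul_eq_mul,
      _root_.map_add, _root_.map_mul]
  rw [h1] at hker hcon
  obtain ⟨hc1, hc2⟩ := hcon
  rw [bl_add_mat, bl_smul_mat, hc2, mul_zero, add_zero] at hc1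
  refine hS α (β + α * algebraMap κ (AlgebraicClosure κ) t) v hv ?_ ?_ ⟨hc1, hc2⟩
  · by_cases hα : α = 0
    · right
      rw [hα, zero_mul, add_zero]
      exact hαβ.resolve_left (fun h => h hα)
    · exact Or.inl hα
  · rw [← hker]
    congr 1
    rw [add_smul, smul_add, mul_smul]
    abel

/-- Any two points are linked by at most two curves. -/
theorem exists_link_two {κ : Type*} [Field κ] [CharZero κ]
    (h10 : ∀ M : Matrix (Fin 10) (Fin 10) κ[X], ∃ v : Fin 10 → κ[X], v ≠ 0 ∧ bl M v v = 0)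
    {f h : Matrix (Fin 7) (Fin 7) κ} (hf : f.IsSymm) (hh : h.IsSymm) (hS : Sm f h)
    {O P : Fin 7 → κ} (hO : O ≠ 0) (hP : P ≠ 0) (hfO : bl f O O = 0)
    (hhO : bl h O O = 0) (hfP : bl f P P = 0) (hhP : bl h P P = 0) :
    ∃ R : Fin 7 → κ, R ≠ 0 ∧ bl f R R = 0 ∧ bl h R R = 0 ∧ CurveLink f h O R ∧
      CurveLink f h R P := by
  obtain ⟨c, hc⟩ := hS.exists_det_ne_zero hf hh
  have hf' : (f + c • h).IsSymm := by
    ext i j
    simp [Matrix.transpose_apply, hf.apply i j, hh.apply i j]
  have key : ∀ x y : Fin 7 → κ, bl (f + c • h) x y = bl f x y + c * bl h x y := by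
    intro x y
    rw [bl_add_mat, bl_smul_mat]
  have hS' := hS.add c
  have hfO' : bl (f + c • h) O O = 0 := by rw [key, hfO, hhO, mul_zero, add_zero]
  have hfP' : bl (f + c • h) P P = 0 := by rw [key, hfP, hhP, mul_zero, add_zero]
  obtain ⟨R, s, t, hfR, hhR, hOR, hs, hds, hRP, ht, hdt⟩ :=
    exists_R hf' hh hS' hc hO hP hfO' hhO hfP' hhP
  have conv : ∀ {x y : Fin 7 → κ}, CurveLink (f + c • h) h x y → CurveLink f h x y := by
    rintro x y ⟨q, h1, h2, h3, h4⟩
    refine ⟨q, ?_, h2, h3, h4⟩
    have h5 : (f + c • h).map C = f.map C + C c • h.map (C : κ →+* κ[X]) := by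
      ext i j : 1
      simp [Matrix.map_apply]
    rw [h5, bl_add_mat, bl_smul_mat, h2, mul_zero, add_zero] at h1
    exact h1
  refine ⟨R, ?_, ?_, hhR, conv (link_pair h10 hf' hh hS' hc hfO' hhO hfR hhR hOR hs hds),
    conv (link_pair h10 hf' hh hS' hc hfR hhR hfP' hhP hRP ht hdt)⟩
  · rintro rfl
    exact hOR (bl_zero_right _ _)
  · rw [key, hhR, mul_zero, add_zero] at hfR
    exact hfR

/-- The matrices of the two quadratic forms of a smooth complete intersection. -/
theorem sm_of_smooth {k : Type*} [Field k] [CharZero k] {f g : MvPolynomial (Fin (6 + 1)) k}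
    (hX : SmoothTwoQuadrics f g) {A B : Matrix (Fin 7) (Fin 7) k}
    (hA : ∀ x : Fin 7 → AlgebraicClosure k,
      MvPolynomial.aeval x f = bl (A.map (algebraMap k (AlgebraicClosure k))) x x)
    (hA' : ∀ (x : Fin 7 → AlgebraicClosure k) (i : Fin 7),
      MvPolynomial.aeval x (MvPolynomial.pderiv i f) =
        2 * ((A.map (algebraMap k (AlgebraicClosure k))).mulVec x) i)
    (hB : ∀ x : Fin 7 → AlgebraicClosure k,
      MvPolynomial.aeval x g = bl (B.map (algebraMap k (AlgebraicClosure k))) x x)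
    (hB' : ∀ (x : Fin 7 → AlgebraicClosure k) (i : Fin 7),
      MvPolynomial.aeval x (MvPolynomial.pderiv i g) =
        2 * ((B.map (algebraMap k (AlgebraicClosure k))).mulVec x) i) : Sm A B := by
  intro α β v hv hαβ hker hcon
  have hli := hX.2.2 v hv (by rw [hA, hcon.1]) (by rw [hB, hcon.2])
  rw [LinearIndependent.pair_iff] at hli
  have h1 := hli α β (by
    funext i
    simp only [Pi.add_apply, Pi.smul_apply, smul_eq_mul, Pi.zero_apply]
    rw [hA', hB']
    have h2 := congrFun hker i
    rw [Matrix.add_mulVec, Matrix.smul_mulVec, Matrix.smul_mulVec] at h2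
    simp only [Pi.add_apply, Pi.smul_apply, smul_eq_mul, Pi.zero_apply] at h2
    linear_combination 2 * h2)
  rcases hαβ with h | h
  · exact h h1.1
  · exact h h1.2

/-- R-equivalence is trivial on smooth complete intersections of two quadrics in `P⁶` over
`p`-adic fields. -/
theorem subsingleton_RClasses (p : ℕ) [Fact p.Prime] (k : Type*) [Field k] [Algebra ℚ_[p] k]
    [FiniteDimensional ℚ_[p] k] (f g : MvPolynomial (Fin (6 + 1)) k)
    (hX : SmoothTwoQuadrics f g) : Subsingleton (RClasses f g) := by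
  have hchar : CharZero k := charZero_of_injective_algebraMap (algebraMap ℚ_[p] k).injective
  obtain ⟨A, hAs, hA, hA'⟩ := exists_matrix f hX.1
  obtain ⟨B, hBs, hB, hB'⟩ := exists_matrix g hX.2.1
  have hS : Sm A B := sm_of_smooth hX (fun x => hA _ x) (fun x i => hA' _ x i)
    (fun x => hB _ x) (fun x i => hB' _ x i)
  have hAk : ∀ x : Fin 7 → k, MvPolynomial.eval x f = bl A x x := by
    intro x
    have h1 : MvPolynomial.eval x f = bl (A.map (algebraMap k k)) x x := hA k x
    rw [h1]
    rfl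
  have hBk : ∀ x : Fin 7 → k, MvPolynomial.eval x g = bl B x x := by
    intro x
    have h1 : MvPolynomial.eval x g = bl (B.map (algebraMap k k)) x x := hB k x
    rw [h1]
    rfl
  have hlink : ∀ {P Q : Projectivization k (Fin 7 → k)} {a b : k} {x y : Fin 7 → k},
      a ≠ 0 → b ≠ 0 → x = a • P.rep → y = b • Q.rep → CurveLink A B x y →
      DirectlyLinked (n := 6) f g P Q := by
    rintro P Q a b x y ha hb rfl rfl ⟨c, h1, h2, ⟨δ, hδ, h3⟩, ⟨ε, hε, h4⟩⟩
    refine directlyLinked_of_curve hX.1 hX.2.1 c ?_ ?_ (mul_ne_zero hδ ha) (mul_ne_zero hε hb)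
      ?_ ?_
    · rw [hA k[X] c]
      exact h1
    · rw [hB k[X] c]
      exact h2
    · rw [h3, smul_smul]
    · rw [h4, smul_smul]
  constructor
  intro x y
  induction x using Quot.ind with
  | mk P =>
    induction y using Quot.ind with
    | mk Q =>
      obtain ⟨P, hP1, hP2⟩ := P
      obtain ⟨Q, hQ1, hQ2⟩ := Q
      obtain ⟨R, hR0, hR1, hR2, hPR, hRQ⟩ := exists_link_two (isotropic_ten p k) hAs hBs hS
        P.rep_nonzero Q.rep_nonzero (by rw [← hAk]; exact hP1) (by rw [← hBk]; exact hP2)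
        (by rw [← hAk]; exact hQ1) (by rw [← hBk]; exact hQ2)
      obtain ⟨a, ha⟩ := Projectivization.exists_smul_eq_mk_rep k R hR0
      have hR : R = ((a⁻¹ : kˣ) : k) • (Projectivization.mk k R hR0).rep := by
        rw [← ha]
        rw [← Units.smul_def, smul_smul, inv_mul_cancel, one_smul]
      have hmem : Projectivization.mk k R hR0 ∈ ratPoints (n := 6) f g := by
        constructor
        · rw [hAk, ← ha, Units.smul_def, bl_smul_left, bl_smul_right, hR1, mul_zero, mul_zero]
        · rw [hBk, ← ha, Units.smul_def, bl_smul_left, bl_smul_right, hR2, mul_zero, mul_zero]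
      have h1 : DirectlyLinked (n := 6) f g P (Projectivization.mk k R hR0) :=
        hlink one_ne_zero (Units.ne_zero a⁻¹) (one_smul _ _).symm hR hPR
      have h2 : DirectlyLinked (n := 6) f g (Projectivization.mk k R hR0) Q :=
        hlink (Units.ne_zero a⁻¹) one_ne_zero hR (one_smul _ _).symm hRQ
      exact (Quot.sound (a := (⟨P, hP1, hP2⟩ : ratPoints (n := 6) f g))
        (b := (⟨_, hmem⟩ : ratPoints (n := 6) f g)) h1).trans
        (Quot.sound (a := (⟨_, hmem⟩ : ratPoints (n := 6) f g))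
          (b := (⟨Q, hQ1, hQ2⟩ : ratPoints (n := 6) f g)) h2)

end Pool.Agent.Lib.MP_8ab79f_ag.Six
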